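import Mathlib
import Pool.Agent.W569.UF.DefsC

/-!
UF-DISCR: an everywhere unramified cyclic extension of degree `p` of `ℚ(ζ_p)` has discriminant the
`p`-th power of the discriminant of `ℚ(ζ_p)`.
-/

set_option autoImplicit false

namespace Pool.Agent.W505.UF

open NumberField Pool.Agent.W569.FM Pool.Agent.W569.UF
open scoped Pointwise

theorem diff_top (F M : Type) [Field F] [NumberField F] [Field M] [NumberField M] [Algebra F M]
    [IsGalois F M] (h : ∀ P : Ideal (𝓞 M), P.IsMaximal →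
      ∀ γ : M ≃ₐ[F] M, γ ∈ P.inertia (M ≃ₐ[F] M) → γ = 1) : differentIdeal (𝓞 F) (𝓞 M) = ⊤ := by
  by_contra hne
  obtain ⟨P, hPm, hP⟩ := Ideal.exists_le_maximal _ hne
  have hdvd : P ∣ differentIdeal (𝓞 F) (𝓞 M) := Ideal.dvd_iff_le.2 hP
  refine (not_dvd_differentIdeal_iff (A := 𝓞 F) (B := 𝓞 M) (P := P)).2 ?_ hdvd
  have hG1 : IsGaloisGroup (M ≃ₐ[F] M) (𝓞 F) (𝓞 M) :=
    IsGaloisGroup.of_isFractionRing (M ≃ₐ[F] M) (𝓞 F) (𝓞 M) F M
  have hP0 : P ≠ ⊥ := Ideal.IsMaximal.ne_bot_of_isIntegral_int P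
  have e1 : Nat.card (P.inertia (M ≃ₐ[F] M)) = P.ramificationIdx (𝓞 F) := by
    rw [Ideal.card_inertia_eq_ramificationIdxIn (P.under (𝓞 F)),
      Ideal.ramificationIdxIn_eq_ramificationIdx (P.under (𝓞 F)) P (M ≃ₐ[F] M)]
  have e2 : Nat.card (P.inertia (M ≃ₐ[F] M)) = 1 := by
    have : P.inertia (M ≃ₐ[F] M) = ⊥ := by
      rw [eq_bot_iff]
      intro γ hγ
      rw [Subgroup.mem_bot]
      exact h P hPm γ hγ
    rw [this]
    simp
  rw [← Ideal.ramificationIdx_eq_one_iff, ← e1, e2]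

theorem discr_pow (F M : Type) [Field F] [NumberField F] [Field M] [NumberField M] [Algebra F M]
    [IsGalois F M] (h : ∀ P : Ideal (𝓞 M), P.IsMaximal →
      ∀ γ : M ≃ₐ[F] M, γ ∈ P.inertia (M ≃ₐ[F] M) → γ = 1) :
    |discr M| = |discr F| ^ (Module.finrank F M) := by
  have h1 := natAbs_discr_eq_absNorm_differentIdeal_mul_natAbs_discr_pow F (𝓞 F) M (𝓞 M)
  rw [diff_top F M h, Ideal.absNorm_top, one_mul] at h1
  rw [Int.abs_eq_natAbs, Int.abs_eq_natAbs, h1]
  push_cast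
  rfl

section

variable {F Ω : Type} [Field F] [Field Ω] [Algebra F Ω]

theorem coe_smul (σ : Gal(Ω/F)) (x : 𝓞 Ω) : ((σ • x : 𝓞 Ω) : Ω) = σ x := rfl

theorem smulComm (M : IntermediateField F Ω) :
    SMulCommClass M.fixingSubgroup (𝓞 M) (𝓞 Ω) := by
  refine ⟨fun g a b => ?_⟩
  apply RingOfIntegers.ext
  rw [Subgroup.smul_def, Subgroup.smul_def, coe_smul, Algebra.smul_def, Algebra.smul_def]
  show g.1 ((algebraMap (𝓞 M) (𝓞 Ω) a : 𝓞 Ω) * (b : Ω)) =
    (algebraMap (𝓞 M) (𝓞 Ω) a : 𝓞 Ω) * g.1 b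
  rw [map_mul]
  congr 1
  exact g.2 (a : M)

theorem isInv [IsGalois F Ω] (M : IntermediateField F Ω) :
    Algebra.IsInvariant (𝓞 M) (𝓞 Ω) M.fixingSubgroup := by
  refine ⟨fun b hb => ?_⟩
  have h1 : (b : Ω) ∈ M := by
    rw [← InfiniteGalois.fixedField_fixingSubgroup M]
    intro g
    exact congrArg (fun z : 𝓞 Ω => (z : Ω)) (hb g)
  refine ⟨⟨⟨b, h1⟩, ?_⟩, ?_⟩
  · have h3 : IsIntegral ℤ (algebraMap M Ω ⟨b, h1⟩) := b.2
    exact (isIntegral_algebraMap_iff (algebraMap M Ω).injective).1 h3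
  · apply RingOfIntegers.ext
    rfl

end

theorem inert_triv {F Ω : Type} [Field F] [NumberField F] [Field Ω] [Algebra F Ω] [IsGalois F Ω]
    (E : Type) [Group E] (f : Gal(Ω/F) →* E) (M : IntermediateField F Ω) [NumberField M]
    [IsGalois F M] (hfix : M.fixingSubgroup = f.ker)
    (hI : ∀ P : Ideal (𝓞 Ω), P.IsMaximal → ∀ τ : Gal(Ω/F), (∀ x : 𝓞 Ω, τ • x - x ∈ P) → f τ = 1) :
    ∀ P : Ideal (𝓞 M), P.IsMaximal →
      ∀ γ : M ≃ₐ[F] M, γ ∈ P.inertia (M ≃ₐ[F] M) → γ = 1 := by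
  classical
  have hclosed : IsClosed (M.fixingSubgroup : Set Gal(Ω/F)) :=
    InfiniteGalois.fixingSubgroup_isClosed M
  have hcomm : SMulCommClass M.fixingSubgroup (𝓞 M) (𝓞 Ω) := smulComm M
  have hinv : Algebra.IsInvariant (𝓞 M) (𝓞 Ω) M.fixingSubgroup := isInv M
  have hcpt : CompactSpace M.fixingSubgroup := isCompact_iff_compactSpace.1 hclosed.isCompact
  let _ : TopologicalSpace (𝓞 Ω) := ⊥
  have : DiscreteTopology (𝓞 Ω) := ⟨rfl⟩
  have hcont : ContinuousSMul Gal(Ω/F) (𝓞 Ω) := by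
    rw [continuousSMul_iff_stabilizer_isOpen]
    intro x
    have h1 := stabilizer_isOpen_of_isIntegral (K := F) (x : Ω)
    convert h1 using 2
    ext g
    rw [MulAction.mem_stabilizer_iff, MulAction.mem_stabilizer_iff]
    constructor
    · intro h
      exact congrArg (fun z : 𝓞 Ω => (z : Ω)) h
    · intro h
      exact RingOfIntegers.ext h
  have hcontU : ContinuousSMul M.fixingSubgroup (𝓞 Ω) := inferInstance
  intro P hP γ hγ
  obtain ⟨Q, hQm, hQP⟩ := Ideal.exists_maximal_ideal_liesOver_of_isIntegral (S := 𝓞 Ω) P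
  obtain ⟨g0, hg0⟩ := AlgEquiv.restrictNormalHom_surjective (F := F) (K₁ := M) Ω γ
  have hres : ∀ a : 𝓞 M, g0 • (algebraMap (𝓞 M) (𝓞 Ω) a) =
      algebraMap (𝓞 M) (𝓞 Ω) (γ • a) := by
    intro a
    apply RingOfIntegers.ext
    rw [coe_smul]
    have := AlgEquiv.restrictNormal_commutes g0 M (a : M)
    rw [← hg0]
    exact this.symm
  have hres' : ∀ a : 𝓞 M, g0⁻¹ • (algebraMap (𝓞 M) (𝓞 Ω) a) =
      algebraMap (𝓞 M) (𝓞 Ω) (γ⁻¹ • a) := by
    intro a
    rw [inv_smul_eq_iff, hres, smul_inv_smul]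
  have hmemP : ∀ a : 𝓞 M, algebraMap (𝓞 M) (𝓞 Ω) a ∈ Q ↔ a ∈ P := by
    intro a
    rw [hQP.over]
    rfl
  have hQ' : (g0 • Q).IsPrime := inferInstance
  have hunder : (g0 • Q).under (𝓞 M) = Q.under (𝓞 M) := by
    ext a
    rw [Ideal.under_def, Ideal.mem_comap, Ideal.under_def, Ideal.mem_comap,
      Ideal.mem_pointwise_smul_iff_inv_smul_mem, hres', hmemP, hmemP]
    have h1 : γ⁻¹ • a - a ∈ P := (inv_mem hγ) a
    constructor
    · intro h2
      have := P.sub_mem h2 h1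
      rwa [sub_sub_cancel] at this
    · intro h2
      have := P.add_mem h1 h2
      rwa [sub_add_cancel] at this
  obtain ⟨h, hh⟩ := Algebra.IsInvariant.exists_smul_of_under_eq_of_profinite
    (A := 𝓞 M) (G := M.fixingSubgroup) (g0 • Q) Q hunder
  set g1 : Gal(Ω/F) := h.1 * g0 with hg1
  have hg1Q : g1 • Q = Q := by
    rw [hg1, mul_smul]
    exact hh.symm
  have hres1 : ∀ a : 𝓞 M, g1 • (algebraMap (𝓞 M) (𝓞 Ω) a) =
      algebraMap (𝓞 M) (𝓞 Ω) (γ • a) := by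
    intro a
    rw [hg1, mul_smul, hres]
    exact smul_algebraMap h (γ • a)
  have hmap : Q = Q.map (MulSemiringAction.toRingEquiv Gal(Ω/F) (𝓞 Ω) g1 : 𝓞 Ω →+* 𝓞 Ω) := by
    conv_lhs => rw [← hg1Q]
    rw [Ideal.pointwise_smul_def]
    rfl
  let σ : (𝓞 Ω ⧸ Q) ≃ₐ[𝓞 M ⧸ P] (𝓞 Ω ⧸ Q) :=
    AlgEquiv.ofRingEquiv (f := Ideal.quotientEquiv Q Q
      (MulSemiringAction.toRingEquiv Gal(Ω/F) (𝓞 Ω) g1) hmap) (by
      intro a
      obtain ⟨a, rfl⟩ := Ideal.Quotient.mk_surjective a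
      show Ideal.Quotient.mk Q (g1 • algebraMap (𝓞 M) (𝓞 Ω) a) =
        Ideal.Quotient.mk Q (algebraMap (𝓞 M) (𝓞 Ω) a)
      rw [Ideal.Quotient.mk_eq_mk_iff_sub_mem, hres1, ← map_sub, hmemP]
      exact hγ a)
  obtain ⟨k, hk⟩ := Ideal.Quotient.stabilizerHom_surjective_of_profinite
    (G := M.fixingSubgroup) P Q σ
  have hk' : ∀ x : 𝓞 Ω, g1 • x - k.1.1 • x ∈ Q := by
    intro x
    have h1 := DFunLike.congr_fun hk (Ideal.Quotient.mk Q x)
    rw [Ideal.Quotient.stabilizerHom_apply] at h1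
    rw [← Ideal.Quotient.mk_eq_mk_iff_sub_mem]
    exact h1.symm
  have hker : ∀ g ∈ M.fixingSubgroup, f g = 1 := by
    intro g hg
    rw [hfix] at hg
    exact hg
  obtain ⟨k1, hkU, hkQ, hk'⟩ : ∃ k1 : Gal(Ω/F), f k1 = 1 ∧ k1 • Q = Q ∧
      ∀ x : 𝓞 Ω, g1 • x - k1 • x ∈ Q := ⟨k.1.1, hker k.1.1 k.1.2, k.2, hk'⟩
  have hτ : ∀ x : 𝓞 Ω, (k1⁻¹ * g1) • x - x ∈ Q := by
    intro x
    have h1 := hk' x
    rw [← hkQ, Ideal.mem_pointwise_smul_iff_inv_smul_mem, smul_sub, inv_smul_smul,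
      ← mul_smul] at h1
    exact h1
  have h5 : f (k1⁻¹ * g1) = 1 := hI Q hQm _ hτ
  have h6 : g0 ∈ f.ker := by
    have h7 : f h.1 = 1 := hker h.1 h.2
    rw [hg1, map_mul, map_mul, map_inv, hkU, h7, inv_one, one_mul, one_mul] at h5
    exact h5
  rw [← hfix, IntermediateField.mem_fixingSubgroup_iff] at h6
  rw [← hg0]
  ext x
  have h7 := AlgEquiv.restrictNormal_commutes g0 M x
  have h8 := h6 _ x.2
  exact h7.trans h8

section

variable (Ω : Type) [Field Ω] [CharZero Ω] [IsGalois ℚ Ω]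

/-- the cyclotomic field -/
noncomputable abbrev Kc (p : ℕ) : IntermediateField ℚ Ω :=
  IntermediateField.adjoin ℚ {z : Ω | z ^ p = 1}

omit [IsGalois ℚ Ω] in
theorem Kc_eq (p : ℕ) (hp : p.Prime) (ζ : Ω) (hζ : IsPrimitiveRoot ζ p) :
    Kc Ω p = IntermediateField.adjoin ℚ {ζ} := by
  have : NeZero p := ⟨hp.ne_zero⟩
  refine le_antisymm ?_ ?_
  · rw [IntermediateField.adjoin_le_iff]
    intro z hz
    obtain ⟨i, _, hi⟩ := hζ.eq_pow_of_pow_eq_one hz
    rw [← hi]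
    exact pow_mem (IntermediateField.mem_adjoin_simple_self ℚ ζ) i
  · rw [IntermediateField.adjoin_le_iff]
    intro z hz
    rw [Set.mem_singleton_iff.1 hz]
    exact IntermediateField.subset_adjoin ℚ _ hζ.pow_eq_one

theorem Kc_fin (p : ℕ) (hp : p.Prime) (ζ : Ω) (hζ : IsPrimitiveRoot ζ p) :
    FiniteDimensional ℚ (Kc Ω p) ∧ Module.finrank ℚ (Kc Ω p) = p - 1 := by
  have hK := Kc_eq Ω p hp ζ hζ
  have hint : IsIntegral ℚ ζ := Algebra.IsIntegral.isIntegral ζ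
  rw [hK]
  refine ⟨IntermediateField.adjoin.finiteDimensional hint, ?_⟩
  rw [IntermediateField.adjoin.finrank hint, ← Polynomial.cyclotomic_eq_minpoly_rat hζ hp.pos,
    Polynomial.natDegree_cyclotomic, Nat.totient_prime hp]

theorem gen (p : ℕ) (hp : p.Prime) (ζ : Ω) (hζ : IsPrimitiveRoot ζ p)
    (f : (Kc Ω p).fixingSubgroup →* Multiplicative (ZMod p))
    (hf : IsOpen (f.ker : Set (Kc Ω p).fixingSubgroup))
    (hI : ∀ P : Ideal (𝓞 Ω), P.IsMaximal → ∀ τ : (Kc Ω p).fixingSubgroup,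
      (∀ x : 𝓞 Ω, (τ : Gal(Ω/ℚ)) • x - x ∈ P) → f τ = 1) (hne : ∃ g, f g ≠ 1) :
    ∃ (L : IntermediateField ℚ Ω) (_ : NumberField L) (_ : NumberField (Kc Ω p)),
      Kc Ω p ≤ L ∧ Module.finrank ℚ L = p * (p - 1) ∧ |discr L| = |discr (Kc Ω p)| ^ p := by
  classical
  have hp' : Fact p.Prime := ⟨hp⟩
  obtain ⟨hKfin, hKrank⟩ := Kc_fin Ω p hp ζ hζ
  have hKnf : NumberField (Kc Ω p) := ⟨⟩
  set e : (Kc Ω p).fixingSubgroup ≃* Gal(Ω/Kc Ω p) :=
    IntermediateField.fixingSubgroupEquiv (Kc Ω p) with he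
  set f' : Gal(Ω/Kc Ω p) →* Multiplicative (ZMod p) := f.comp e.symm.toMonoidHom
    with hf'
  set N : Subgroup Gal(Ω/ℚ) := f.ker.map ((Kc Ω p).fixingSubgroup).subtype with hN
  have hHopen : IsOpen ((Kc Ω p).fixingSubgroup : Set Gal(Ω/ℚ)) :=
    IntermediateField.fixingSubgroup_isOpen (Kc Ω p)
  have hNopen : IsOpen (N : Set Gal(Ω/ℚ)) := by
    rw [hN, Subgroup.coe_map]
    exact hHopen.isOpenMap_subtype_val _ hf
  have hNclosed : IsClosed (N : Set Gal(Ω/ℚ)) := Subgroup.isClosed_of_isOpen _ hNopen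
  set L : IntermediateField ℚ Ω := IntermediateField.fixedField N with hL
  have hfixL : L.fixingSubgroup = N := InfiniteGalois.fixingSubgroup_fixedField ⟨N, hNclosed⟩
  have hLfin : FiniteDimensional ℚ L :=
    (InfiniteGalois.isOpen_iff_finite L).1 (by rw [hfixL]; exact hNopen)
  have hLnf : NumberField L := ⟨⟩
  have hKL : Kc Ω p ≤ L := by
    rw [hL, IntermediateField.le_iff_le, hN]
    intro x hx
    obtain ⟨y, _, rfl⟩ := Subgroup.mem_map.1 hx
    exact y.2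
  set M : IntermediateField (Kc Ω p) Ω := IntermediateField.extendScalars hKL
    with hM
  have hMmem : ∀ x, x ∈ M ↔ x ∈ L := fun x => IntermediateField.mem_extendScalars hKL
  have hfixM : M.fixingSubgroup = f'.ker := by
    ext σ
    have e1 : σ ∈ M.fixingSubgroup ↔ ((e.symm σ : (Kc Ω p).fixingSubgroup) : Gal(Ω/ℚ)) ∈
        L.fixingSubgroup := by
      rw [IntermediateField.mem_fixingSubgroup_iff, IntermediateField.mem_fixingSubgroup_iff]
      constructor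
      · intro h x hx
        exact h x ((hMmem x).2 hx)
      · intro h x hx
        exact h x ((hMmem x).1 hx)
    rw [e1, hfixL, hN, Subgroup.mem_map]
    constructor
    · rintro ⟨y, hy, hyσ⟩
      have : y = e.symm σ := Subtype.ext hyσ
      rw [this] at hy
      exact hy
    · intro h
      exact ⟨e.symm σ, h, rfl⟩
  let eLM : L ≃+* M :=
    { toFun := fun x => ⟨x.1, (hMmem _).2 x.2⟩
      invFun := fun x => ⟨x.1, (hMmem _).1 x.2⟩
      left_inv := fun x => rfl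
      right_inv := fun x => rfl
      map_mul' := fun x y => rfl
      map_add' := fun x y => rfl }
  have hMfinQ : FiniteDimensional ℚ M := by
    let el : L ≃ₐ[ℚ] M := AlgEquiv.ofRingEquiv (f := eLM) (fun r => by simp)
    exact el.toLinearEquiv.finiteDimensional
  have hMnf : NumberField M := ⟨⟩
  have hGal : IsGalois (Kc Ω p) Ω := inferInstance
  have hMgal : IsGalois (Kc Ω p) M := by
    apply (InfiniteGalois.normal_iff_isGalois M).1
    rw [hfixM]
    infer_instance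
  have hMfin : FiniteDimensional (Kc Ω p) M := Module.Finite.of_restrictScalars_finite ℚ (Kc Ω p) M
  have hin := inert_triv (Multiplicative (ZMod p)) f' M hfixM (by
    intro P hP τ hτ
    exact hI P hP (e.symm τ) hτ)
  have hd := discr_pow (Kc Ω p) M hin
  have hsurj : Function.Surjective f' := by
    have h1 : f'.range = ⊤ := by
      have hcard : Nat.card (Multiplicative (ZMod p)) = p := by simp
      have : Fact (Nat.card (Multiplicative (ZMod p))).Prime := ⟨by rw [hcard]; exact hp⟩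
      rcases Subgroup.eq_bot_or_eq_top_of_prime_card f'.range with h | h
      · exfalso
        obtain ⟨g, hg⟩ := hne
        apply hg
        have h2 : f' (e g) ∈ f'.range := ⟨e g, rfl⟩
        rw [h, Subgroup.mem_bot] at h2
        have h3 : f' (e g) = f g := by
          rw [hf']
          simp
        rw [← h3, h2]
      · exact h
    exact MonoidHom.range_eq_top.1 h1
  have hrank : Module.finrank (Kc Ω p) M = p := by
    rw [← IsGalois.card_aut_eq_finrank]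
    have e1 : Gal(M/Kc Ω p) ≃* Multiplicative (ZMod p) := by
      have a1 : Gal(Ω/Kc Ω p) ⧸ M.fixingSubgroup ≃* Gal(M/Kc Ω p) :=
        (QuotientGroup.quotientMulEquivOfEq M.restrictNormalHom_ker.symm).trans
          (QuotientGroup.quotientKerEquivOfSurjective _
            (AlgEquiv.restrictNormalHom_surjective Ω))
      have a2 : Gal(Ω/Kc Ω p) ⧸ M.fixingSubgroup ≃* Multiplicative (ZMod p) :=
        (QuotientGroup.quotientMulEquivOfEq hfixM).trans
          (QuotientGroup.quotientKerEquivOfSurjective f' hsurj)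
      exact a1.symm.trans a2
    rw [Nat.card_congr e1.toEquiv]
    simp
  refine ⟨L, hLnf, hKnf, hKL, ?_, ?_⟩
  · have h1 : Module.finrank ℚ L = Module.finrank ℚ M := by
      let el : L ≃ₐ[ℚ] M := AlgEquiv.ofRingEquiv (f := eLM) (fun r => by simp)
      exact el.toLinearEquiv.finrank_eq
    rw [h1, ← Module.finrank_mul_finrank ℚ (Kc Ω p) M, hKrank, hrank, mul_comm]
  · have h1 : discr L = discr M := discr_eq_discr_of_ringEquiv L eLM
    rw [h1, hd, hrank]

end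

theorem main : S_DISCR := by
  intro p hp f hf hI hne
  have : NeZero p := ⟨hp.ne_zero⟩
  have : NeZero (p : AlgebraicClosure ℚ) := ⟨by exact_mod_cast hp.ne_zero⟩
  obtain ⟨ζ, hζ⟩ := HasEnoughRootsOfUnity.exists_primitiveRoot (AlgebraicClosure ℚ) p
  have hG : @IsGalois ℚ _ (AlgebraicClosure ℚ) _ (AlgebraicClosure.instAlgebra ℚ) := inferInstance
  have hG' : IsGalois ℚ (AlgebraicClosure ℚ) := hG
  exact gen (AlgebraicClosure ℚ) p hp ζ hζ f hf hI hne

end Pool.Agent.W505.UF
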